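import Mathlib

namespace Pool.Agent.Results.MP_020c1a_co.CentralTwist

/-- A `p`-singular family: `g h⁻¹` has order divisible by `p` for distinct members. -/
def Singular {G : Type} [Group G] (p : ℕ) (S : Set G) : Prop :=
  ∀ g ∈ S, ∀ h ∈ S, g ≠ h → p ∣ orderOf (g * h⁻¹)

/-- A maximum `p`-singular family. -/
def Maximum {G : Type} [Group G] (p : ℕ) (S : Set G) : Prop :=
  Singular p S ∧ ∀ T : Set G, Singular p T → T.ncard ≤ S.ncard

/-- `S = g P h` for a Sylow `p`-subgroup `P`. -/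
def DoubleTranslate {G : Type} [Group G] (p : ℕ) (S : Set G) : Prop :=
  ∃ (P : Sylow p G) (g h : G), S = (fun x => g * x * h) '' (P : Set G)

lemma ord_pow {G : Type} [Group G] {p : ℕ} [Fact p.Prime] (P : Sylow p G) {x : G} (hx : x ∈ P) :
    ∃ k, orderOf x = p ^ k := by
  obtain ⟨k, hk⟩ := IsPGroup.iff_orderOf.1 P.isPGroup' ⟨x, hx⟩
  exact ⟨k, by rw [← hk, Subgroup.orderOf_mk]⟩

lemma general {G : Type} [Group G] [Finite G] (p : ℕ) [hp : Fact p.Prime] (z : G)
    (hz : ∀ x, Commute z x) (hz1 : z ≠ 1) (hc : (orderOf z).Coprime p) (hG : p ∣ Nat.card G) :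
    ∃ S : Set G, Maximum p S ∧ ¬ DoubleTranslate p S := by
  classical
  obtain ⟨P⟩ : Nonempty (Sylow p G) := inferInstance
  obtain ⟨⟨u, hu⟩, hu1⟩ := Subgroup.ne_bot_iff_exists_ne_one.1 (P.ne_bot_of_dvd_card hG)
  have hu1 : u ≠ 1 := fun h => hu1 (Subtype.ext h)
  have ho : ∀ y ∈ P, orderOf (z * y) = orderOf z * orderOf y := by
    intro y hy
    obtain ⟨k, hk⟩ := ord_pow P hy
    exact (hz y).orderOf_mul_eq_mul_orderOf_of_coprime (hk ▸ hc.pow_right k)
  have hzu : ∀ k, orderOf (z * u) ≠ p ^ k := by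
    intro k hk
    have : orderOf z ∣ p ^ k := hk ▸ (ho u hu) ▸ Dvd.intro _ rfl
    exact hz1 (orderOf_eq_one_iff.1 ((hc.pow_right k).eq_one_of_dvd this))
  have hd : ∀ y ∈ P, y ≠ 1 → p ∣ orderOf y := by
    intro y hy hy1
    obtain ⟨k, hk⟩ := ord_pow P hy
    rcases k with _ | k
    · exact absurd (orderOf_eq_one_iff.1 (by simpa using hk)) hy1
    · rw [hk]; exact dvd_pow_self p (by omega)
  have hnot : z * u ∉ (P : Set G) := fun h => by
    obtain ⟨k, hk⟩ := ord_pow P h
    exact hzu k hk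
  let S : Set G := insert (z * u) ((P : Set G) \ {u})
  have hS : Singular p S := by
    have aux : ∀ h ∈ (P : Set G) \ {u}, p ∣ orderOf (z * u * h⁻¹) := by
      rintro h ⟨h1, h2⟩
      have hm : u * h⁻¹ ∈ P := P.1.mul_mem hu (P.1.inv_mem h1)
      rw [mul_assoc, ho _ hm]
      exact Dvd.dvd.mul_left (hd _ hm fun e => h2 (mul_inv_eq_one.1 e).symm) _
    rintro g (rfl | hg) h (rfl | hh) hne
    · exact absurd rfl hne
    · exact aux h hh
    · rw [← orderOf_inv, mul_inv_rev, inv_inv]; exact aux g hg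
    · exact hd _ (P.1.mul_mem hg.1 (P.1.inv_mem hh.1)) fun e => hne (mul_inv_eq_one.1 e)
  have hcard : S.ncard = (P : Set G).ncard := by
    rw [Set.ncard_insert_of_notMem (fun h => hnot h.1)]
    exact Set.ncard_sdiff_singleton_add_one (show u ∈ (P : Set G) from hu)
  have hSn : ¬ DoubleTranslate p S := by
    rintro ⟨Q, g, h, hQ⟩
    obtain ⟨x, hx, e1⟩ : (1 : G) ∈ (fun x => g * x * h) '' (Q : Set G) :=
      hQ ▸ Or.inr ⟨P.1.one_mem, Ne.symm hu1⟩
    obtain ⟨y, hy, e2⟩ : z * u ∈ (fun x => g * x * h) '' (Q : Set G) := hQ ▸ Or.inl rfl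
    obtain ⟨k, hk⟩ := ord_pow Q (Q.1.mul_mem hy (Q.1.inv_mem hx))
    apply hzu k
    have e3 : z * u = g * (y * x⁻¹) * g⁻¹ := by
      have : h = x⁻¹ * g⁻¹ := by
        rw [← mul_inv_rev]; exact eq_inv_of_mul_eq_one_right e1
      rw [← e2, this]; group
    rw [e3, ← hk]
    exact (MulAut.conj g).orderOf_eq _
  obtain ⟨T, hT, hmax⟩ := Set.exists_max_image {T : Set G | Singular p T} Set.ncard
    (Set.toFinite _) ⟨S, hS⟩
  by_cases hTd : DoubleTranslate p T
  · refine ⟨S, ⟨hS, fun U hU => (hmax U hU).trans (le_of_eq ?_)⟩, hSn⟩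
    obtain ⟨Q, g, h, rfl⟩ := hTd
    rw [hcard, Set.ncard_image_of_injective _ (fun a b e => by simpa using e)]
    exact (Nat.card_congr (Sylow.equiv Q P).toEquiv :)
  · exact ⟨T, ⟨hT, hmax⟩, hTd⟩

theorem result (p n : ℕ) [Fact p.Prime] (F : Type) [Field F] [Fintype F] [DecidableEq F]
    [CharP F p] (hq : 2 < Fintype.card F) (hn : 2 ≤ n) :
    ∃ S : Set (GL (Fin n) F), Maximum p S ∧ ¬ DoubleTranslate p S := by
  obtain ⟨a, ha⟩ : ∃ a : Fˣ, a ≠ 1 := by
    have : 1 < Fintype.card Fˣ := by rw [Fintype.card_units]; omega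
    exact Fintype.exists_ne_of_one_lt_card this 1
  let i : Fin n := ⟨0, by omega⟩
  let j : Fin n := ⟨1, by omega⟩
  have hij : i ≠ j := by simp [i, j]
  refine general p (Matrix.GeneralLinearGroup.scalar (Fin n) a)
    (Matrix.GeneralLinearGroup.scalar_commute a) (fun h => ha ?_) ?_ ?_
  · have := congrArg (fun M : GL (Fin n) F => (M : Matrix (Fin n) (Fin n) F) i i) h
    ext
    simpa using this
  · refine Nat.Coprime.of_dvd_left ((orderOf_map_dvd _ a).trans orderOf_dvd_card) ?_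
    rw [Fintype.card_units]
    obtain ⟨k, -, hk⟩ := FiniteField.card F p
    have : p ∣ Fintype.card F := hk ▸ dvd_pow_self p k.ne_zero
    exact Nat.Coprime.of_dvd_right this ((Nat.coprime_self_sub_left (by omega)).2 (by simp))
  · let u : GL (Fin n) F := Matrix.GeneralLinearGroup.mkOfDetNeZero (Matrix.transvection i j 1)
      (by rw [Matrix.det_transvection_of_ne i j hij]; exact one_ne_zero)
    have hk : ∀ k : ℕ, ((u ^ k : GL (Fin n) F) : Matrix (Fin n) (Fin n) F) =
        Matrix.transvection i j (k : F) := by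
      intro k
      induction k with
      | zero => simp
      | succ k ih =>
        rw [pow_succ, Units.val_mul, ih, Nat.cast_succ,
          ← Matrix.transvection_mul_transvection_same i j hij]
        rfl
    have h1 : u ^ p = 1 := by ext1; rw [hk]; simp
    have h2 : u ≠ 1 := fun h => by
      have := congrArg (fun M : GL (Fin n) F => (M : Matrix (Fin n) (Fin n) F) i j) h
      simp [u, Matrix.transvection, hij] at this
    exact orderOf_eq_prime h1 h2 ▸ orderOf_dvd_natCard u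

end Pool.Agent.Results.MP_020c1a_co.CentralTwist
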